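import Pool.Agent.H95.CMC.Targets

/-!
# Bessel's inequality
-/

set_option autoImplicit false

open Filter

namespace Pool.Agent.H24.CMC

open Pool.Agent.H95.CMC

theorem pf_BES : T_BES := by
  classical
  intro τ κ P S χ F hn ho
  rcases P.eq_empty_or_nonempty with rfl | hP
  · simp
  have hN : (0 : ℝ) < P.card := by exact_mod_cast hP.card_pos
  set N : ℝ := (P.card : ℝ) with hNd
  set r : ℝ := Real.sqrt N with hr
  have hr0 : 0 < r := Real.sqrt_pos.mpr hN
  have hrr : r * r = N := Real.mul_self_sqrt hN.le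
  let v : {x // x ∈ S} → EuclideanSpace ℂ {p // p ∈ P} := fun x =>
    WithLp.toLp 2 (fun p => (starRingEnd ℂ) (χ x p) / (r : ℂ))
  let w : EuclideanSpace ℂ {p // p ∈ P} := WithLp.toLp 2 (fun p => F p)
  have hin : ∀ (x : {x // x ∈ S}) (z : EuclideanSpace ℂ {p // p ∈ P}),
      inner ℂ (v x) z = (∑ p : {p // p ∈ P}, χ x p * z p) / (r : ℂ) := by
    intro x z
    rw [PiLp.inner_apply, Finset.sum_div]
    refine Finset.sum_congr rfl fun p _ => ?_
    simp only [v, RCLike.inner_apply, map_div₀, Complex.conj_conj, Complex.conj_ofReal]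
    ring
  have hort : Orthonormal ℂ v := by
    rw [orthonormal_iff_ite]
    intro x y
    rw [hin]
    have h1 : (∑ p : {p // p ∈ P}, χ x p * v y p) / (r : ℂ) =
        (∑ p ∈ P, χ x p * (starRingEnd ℂ) (χ y p)) / (N : ℂ) := by
      rw [← Finset.sum_coe_sort P, ← hrr, Finset.sum_div, Finset.sum_div]
      refine Finset.sum_congr rfl fun p _ => ?_
      simp only [v]
      push_cast
      have : (r : ℂ) ≠ 0 := by exact_mod_cast hr0.ne'
      field_simp
    rw [h1]
    split_ifs with h
    · subst h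
      have h2 : ∑ p ∈ P, χ x p * (starRingEnd ℂ) (χ x p) = (N : ℂ) := by
        have : ∀ p ∈ P, χ x p * (starRingEnd ℂ) (χ x p) = 1 := by
          intro p hp
          rw [Complex.mul_conj, Complex.normSq_eq_norm_sq, hn x x.2 p hp]
          simp
        rw [Finset.sum_congr rfl this]
        simp [hNd]
      rw [h2]
      exact div_self (by exact_mod_cast hN.ne')
    · rw [ho x x.2 y y.2 (fun e => h (Subtype.ext e)), zero_div]
  have hB := hort.sum_inner_products_le (s := Finset.univ) w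
  have hw : ‖w‖ ^ 2 = ∑ p ∈ P, ‖F p‖ ^ 2 := by
    rw [EuclideanSpace.norm_sq_eq, ← Finset.sum_coe_sort P]
  have hl : ∑ x : {x // x ∈ S}, ‖inner ℂ (v x) w‖ ^ 2 =
      (∑ x ∈ S, ‖∑ p ∈ P, χ x p * F p‖ ^ 2) / N := by
    rw [← Finset.sum_coe_sort S, Finset.sum_div]
    refine Finset.sum_congr rfl fun x _ => ?_
    rw [hin, norm_div, div_pow, Complex.norm_real, Real.norm_eq_abs, abs_of_pos hr0, sq r, hrr,
      ← Finset.sum_coe_sort P]
  rw [hw, hl, div_le_iff₀ hN] at hB
  linarith

end Pool.Agent.H24.CMC
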