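import Pool.Agent.H95.CMC.Targets

/-!
# Representatives of the ideal classes, prime to an ideal
-/

set_option autoImplicit false

open NumberField
open scoped nonZeroDivisors

namespace Pool.Agent.H24.CMC

open Pool.Agent.H65.CMC Pool.Agent.H95.CMC

theorem pf_CPR : T_CPR := by
  intro k K _ _ _ _ _ _ f hf c
  set F : Ideal (𝓞 K) := f.map (algebraMap (𝓞 k) (𝓞 K)) with hF
  have hF0 : F ≠ ⊥ := by
    rw [hF, Ne, Ideal.map_eq_bot_iff_of_injective (FaithfulSMul.algebraMap_injective _ _)]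
    exact hf
  obtain ⟨J, hJ⟩ := ClassGroup.mk0_surjective (R := 𝓞 K) c⁻¹
  have hJ0 : (J : Ideal (𝓞 K)) ≠ ⊥ := mem_nonZeroDivisors_iff_ne_zero.mp J.2
  by_cases hT : F = ⊤
  · obtain ⟨I, hI⟩ := ClassGroup.mk0_surjective (R := 𝓞 K) c
    exact ⟨I, hI, mem_nonZeroDivisors_iff_ne_zero.mp I.2, by rw [← hF, hT]; simp⟩
  obtain ⟨a, ha⟩ := IsDedekindDomain.exists_sup_span_eq (I := F * (J : Ideal (𝓞 K)))
    (J := (J : Ideal (𝓞 K))) Ideal.mul_le_right (mul_ne_zero hF0 hJ0)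
  have haJ : a ∈ (J : Ideal (𝓞 K)) := by
    rw [← ha]
    exact Ideal.mem_sup_right (Ideal.mem_span_singleton_self a)
  have ha0 : a ≠ 0 := by
    rintro rfl
    apply hT
    rw [Ideal.span_singleton_eq_bot.mpr rfl, sup_bot_eq] at ha
    have h2 : F * (J : Ideal (𝓞 K)) = ⊤ * (J : Ideal (𝓞 K)) := by rw [ha, Ideal.top_mul]
    exact mul_right_cancel₀ hJ0 h2
  obtain ⟨I, hI⟩ : (J : Ideal (𝓞 K)) ∣ Ideal.span {a} := by
    rw [Ideal.dvd_iff_le, Ideal.span_singleton_le_iff_mem]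
    exact haJ
  have hs0 : Ideal.span {a} ≠ ⊥ := by
    rw [Ne, Ideal.span_singleton_eq_bot]
    exact ha0
  have hI0 : I ≠ ⊥ := by
    rintro rfl
    exact hs0 (by rw [hI, Ideal.mul_bot])
  have hIm : I ∈ (Ideal (𝓞 K))⁰ := mem_nonZeroDivisors_iff_ne_zero.mpr hI0
  refine ⟨⟨I, hIm⟩, ?_, hI0, ?_⟩
  · have h1 : ClassGroup.mk0 J * ClassGroup.mk0 ⟨I, hIm⟩ = 1 := by
      rw [← map_mul]
      rw [ClassGroup.mk0_eq_one_iff]
      refine ⟨⟨a, ?_⟩⟩
      change (J : Ideal (𝓞 K)) * I = _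
      rw [← hI]
    rw [hJ] at h1
    exact (inv_mul_eq_one.mp h1).symm
  · have h2 : (J : Ideal (𝓞 K)) * (I ⊔ F) = J * ⊤ := by
      rw [Ideal.mul_sup, ← hI, Ideal.mul_top, sup_comm, mul_comm _ F]
      exact ha
    exact mul_left_cancel₀ hJ0 h2

end Pool.Agent.H24.CMC
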