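import Pool.Agent.H95.CMC.Targets

/-!
# Sums over vectors and sums over integers, modulo units
-/

set_option autoImplicit false

open NumberField

namespace Pool.Agent.H24.CMC

open Pool.Agent.H65.CM4 Pool.Agent.H65.CMC Pool.Agent.H95.CMC
open Pool.Agent.H95.CM (lin lin_add lin_smul)

section Rep

variable {k : Type} [Field k] [NumberField k] (V : Type) [AddCommGroup V] [Module (𝓞 k) V]

/-- the representative -/
noncomputable def rp (u : V) : V :=
  Quotient.out (Quotient.mk (MulAction.orbitRel (𝓞 k)ˣ V) u)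

theorem rp_rel (u : V) : ∃ e : (𝓞 k)ˣ, rp (k := k) V u = (e : 𝓞 k) • u := by
  have h := Quotient.mk_out (s := MulAction.orbitRel (𝓞 k)ˣ V) u
  rw [MulAction.orbitRel_apply] at h
  obtain ⟨e, he⟩ := h
  exact ⟨e, he.symm⟩

theorem rp_smul (e : (𝓞 k)ˣ) (u : V) : rp (k := k) V ((e : 𝓞 k) • u) = rp (k := k) V u := by
  unfold rp
  congr 1
  apply Quotient.sound
  change MulAction.orbitRel (𝓞 k)ˣ V _ _
  rw [MulAction.orbitRel_apply]
  exact ⟨e, rfl⟩

theorem rp_rp (u : V) : rp (k := k) V (rp (k := k) V u) = rp (k := k) V u := by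
  obtain ⟨e, he⟩ := rp_rel (k := k) V u
  conv_lhs => rw [he]
  exact rp_smul V e u

variable {V}

theorem un_ne {e : (𝓞 k)ˣ} {u : V} (hu : u ≠ 0) : (e : 𝓞 k) • u ≠ 0 := by
  intro h
  apply hu
  have h1 : ((e⁻¹ : (𝓞 k)ˣ) : 𝓞 k) • ((e : 𝓞 k) • u) = u := by
    rw [smul_smul, Units.inv_mul, one_smul]
  rw [← h1, h, smul_zero]

theorem rp_ne {u : V} (hu : u ≠ 0) : rp (k := k) V u ≠ 0 := by
  obtain ⟨e, he⟩ := rp_rel (k := k) V u
  rw [he]
  exact un_ne hu

theorem rp_mem (M : Submodule (𝓞 k) V) {u : V} (hu : u ∈ M) : rp (k := k) V u ∈ M := by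
  obtain ⟨e, he⟩ := rp_rel (k := k) V u
  rw [he]
  exact M.smul_mem _ hu

end Rep

theorem pf_ORB : T_ORB := by
  classical
  intro k K _ _ _ _ _ α β N g h a hinj hN hg hh hs
  have hFo : ∀ u : V2 k, u ∈ Fo k ↔ u ≠ 0 ∧ u = rp (k := k) (V2 k) u := fun u => Iff.rfl
  have hFK : ∀ x : 𝓞 K, x ∈ FK k K ↔ x ≠ 0 ∧ x = rp (k := k) (𝓞 K) x := fun u => Iff.rfl
  have hlin : ∀ u v : V2 k, lin α β u = lin α β v → u = v := by
    intro u v e
    have h1 : lin α β (u + (-1 : 𝓞 k) • v) = 0 := by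
      rw [lin_add, lin_smul, e]
      push_cast
      simp
    have h2 := hinj _ h1
    have h3 : u - v = 0 := by rw [← h2]; simp [sub_eq_add_neg]
    exact sub_eq_zero.mp h3
  have hsm : ∀ (c : 𝓞 k) (x : 𝓞 K), ((c • x : 𝓞 K) : K) = algebraMap k K (c : k) * (x : K) := by
    intro c x
    rw [Algebra.smul_def]
    push_cast
    rfl
  let A : Set (V2 k) := {u | u ∈ N ∧ u ∈ Fo k}
  let B : Set (𝓞 K) := {x | x ∈ us α β N ∧ x ∈ FK k K}
  choose! X hX using hN
  have hXus : ∀ u ∈ N, X u ∈ us α β N := fun u hu => ⟨u, hu, hX u hu⟩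
  have hX0 : ∀ u ∈ N, u ≠ 0 → X u ≠ 0 := by
    intro u hu hu0 h0
    apply hu0
    apply hinj
    rw [← hX u hu, h0]
    simp
  have hphi : ∀ u : A, rp (k := k) (𝓞 K) (X u) ∈ B := by
    intro u
    refine ⟨rp_mem _ (hXus u u.2.1), ?_⟩
    rw [hFK]
    exact ⟨rp_ne (hX0 u u.2.1 ((hFo u).mp u.2.2).1), (rp_rp _ _).symm⟩
  let φ : A → B := fun u => ⟨rp (k := k) (𝓞 K) (X u), hphi u⟩
  have hbij : Function.Bijective φ := by
    constructor
    · intro u u' e
      have e1 : rp (k := k) (𝓞 K) (X u) = rp (k := k) (𝓞 K) (X u') := congrArg Subtype.val e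
      obtain ⟨c, hc⟩ := rp_rel (k := k) (𝓞 K) (X u)
      obtain ⟨c', hc'⟩ := rp_rel (k := k) (𝓞 K) (X u')
      rw [hc, hc'] at e1
      have e2 : (c : 𝓞 k) • (u : V2 k) = (c' : 𝓞 k) • (u' : V2 k) := by
        apply hlin
        rw [lin_smul, lin_smul, ← hX u u.2.1, ← hX u' u'.2.1, ← hsm, ← hsm, e1]
      apply Subtype.ext
      rw [((hFo u).mp u.2.2).2, ((hFo u').mp u'.2.2).2, ← rp_smul _ c, e2, rp_smul]
    · rintro ⟨x, ⟨w, hw, hxw⟩, hx⟩
      rw [hFK] at hx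
      have hw0 : w ≠ 0 := by
        rintro rfl
        apply hx.1
        have : (x : K) = 0 := by rw [hxw]; simp [lin]
        exact_mod_cast this
      have hmem : rp (k := k) (V2 k) w ∈ N := rp_mem N hw
      refine ⟨⟨rp (k := k) (V2 k) w, hmem, ?_⟩, ?_⟩
      · rw [hFo]
        exact ⟨rp_ne hw0, (rp_rp _ _).symm⟩
      · apply Subtype.ext
        change rp (k := k) (𝓞 K) (X (rp (k := k) (V2 k) w)) = x
        obtain ⟨c, hc⟩ := rp_rel (k := k) (V2 k) w
        have e3 : X (rp (k := k) (V2 k) w) = (c : 𝓞 k) • x := by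
          apply RingOfIntegers.ext
          rw [hX _ hmem, hc, lin_smul, ← hxw, ← hsm]
        rw [e3, rp_smul]
        exact hx.2.symm
  let e : A ≃ B := Equiv.ofBijective φ hbij
  have hsA : HasSum (h ∘ ((↑) : A → V2 k)) a := by
    rw [hasSum_subtype_iff_indicator]
    have : A.indicator h = fun u => if u ∈ N ∧ u ∈ Fo k then h u else 0 := by
      funext x
      rw [Set.indicator_apply]
      rfl
    rw [this]
    exact hs
  have hsB : HasSum (g ∘ ((↑) : B → 𝓞 K)) a := by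
    rw [← e.hasSum_iff]
    have : (g ∘ ((↑) : B → 𝓞 K)) ∘ e = h ∘ ((↑) : A → V2 k) := by
      funext u
      change g (rp (k := k) (𝓞 K) (X u)) = h u
      obtain ⟨c, hc⟩ := rp_rel (k := k) (𝓞 K) (X u)
      rw [hc, hg, hh u u.2.1 ((hFo u).mp u.2.2).1 (X u) (hX u u.2.1)]
    rw [this]
    exact hsA
  rw [hasSum_subtype_iff_indicator] at hsB
  have : B.indicator g = fun x => if x ∈ us α β N ∧ x ∈ FK k K then g x else 0 := by
    funext x
    rw [Set.indicator_apply]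
    rfl
  rw [← this]
  exact hsB

end Pool.Agent.H24.CMC
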